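import Pool.Agent.R467.IR.Piv

namespace R467.IR

/-- ten tracks -/
def trk (f0 f1 f2 f3 f4 f5 f6 f7 f8 f9 : ℕ → Bool) : ℕ → ℕ → Bool
  | 0 => f0
  | 1 => f1
  | 2 => f2
  | 3 => f3
  | 4 => f4
  | 5 => f5
  | 6 => f6
  | 7 => f7
  | 8 => f8
  | 9 => f9
  | _ => fun _ => false

theorem trk_supp (N : ℕ) (f0 f1 f2 f3 f4 f5 f6 f7 f8 f9 : ℕ → Bool)
    (h0 : ∀ p, f0 p = true → p < N) (h1 : ∀ p, f1 p = true → p < N)
    (h2 : ∀ p, f2 p = true → p < N) (h3 : ∀ p, f3 p = true → p < N)
    (h4 : ∀ p, f4 p = true → p < N) (h5 : ∀ p, f5 p = true → p < N)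
    (h6 : ∀ p, f6 p = true → p < N) (h7 : ∀ p, f7 p = true → p < N)
    (h8 : ∀ p, f8 p = true → p < N) (h9 : ∀ p, f9 p = true → p < N) :
    ∀ z p, trk f0 f1 f2 f3 f4 f5 f6 f7 f8 f9 z p = true → z < 10 ∧ p < N := by
  intro z p h
  match z, h with
  | 0, h => exact ⟨by norm_num, h0 p h⟩
  | 1, h => exact ⟨by norm_num, h1 p h⟩
  | 2, h => exact ⟨by norm_num, h2 p h⟩
  | 3, h => exact ⟨by norm_num, h3 p h⟩
  | 4, h => exact ⟨by norm_num, h4 p h⟩
  | 5, h => exact ⟨by norm_num, h5 p h⟩
  | 6, h => exact ⟨by norm_num, h6 p h⟩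
  | 7, h => exact ⟨by norm_num, h7 p h⟩
  | 8, h => exact ⟨by norm_num, h8 p h⟩
  | 9, h => exact ⟨by norm_num, h9 p h⟩
  | (n + 10), h => exact absurd h (by simp [trk])

theorem testBit_supp {D n : ℕ} (h : n < 2 ^ D) (j : ℕ) (hj : n.testBit j = true) : j < D := by
  by_contra hc
  push Not at hc
  rw [Nat.testBit_lt_two_pow (lt_of_lt_of_le h (Nat.pow_le_pow_right (by norm_num) hc))] at hj
  exact absurd hj (by simp)

/-- top differing bit -/
theorem exists_top {D a b : ℕ} (ha : a < 2 ^ D) (hb : b < 2 ^ D) (hab : a ≠ b) :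
    ∃ k, k < D ∧ a.testBit k ≠ b.testBit k ∧ ∀ j, k < j → a.testBit j = b.testBit j := by
  classical
  have hne : ((Finset.range D).filter fun j => a.testBit j ≠ b.testBit j).Nonempty := by
    by_contra hc
    rw [Finset.not_nonempty_iff_eq_empty] at hc
    apply hab
    apply Nat.eq_of_testBit_eq
    intro j
    by_cases hj : j < D
    · by_contra hd
      have : j ∈ (Finset.range D).filter fun j => a.testBit j ≠ b.testBit j := by
        simp [hj, hd]
      rw [hc] at this
      simp at this
    · rw [Nat.testBit_lt_two_pow (lt_of_lt_of_le ha (Nat.pow_le_pow_right (by norm_num) (not_lt.1 hj))),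
        Nat.testBit_lt_two_pow (lt_of_lt_of_le hb (Nat.pow_le_pow_right (by norm_num) (not_lt.1 hj)))]
  obtain ⟨hk1, hk2⟩ := Finset.mem_filter.1 (Finset.max'_mem _ hne)
  refine ⟨_, Finset.mem_range.1 hk1, hk2, ?_⟩
  intro j hj
  by_contra hd
  by_cases hjD : j < D
  · have : j ∈ (Finset.range D).filter fun j => a.testBit j ≠ b.testBit j := by
      simp [hjD, hd]
    have := Finset.le_max' _ _ this
    omega
  · apply hd
    rw [Nat.testBit_lt_two_pow (lt_of_lt_of_le ha (Nat.pow_le_pow_right (by norm_num) (not_lt.1 hjD))),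
        Nat.testBit_lt_two_pow (lt_of_lt_of_le hb (Nat.pow_le_pow_right (by norm_num) (not_lt.1 hjD)))]

theorem t_BIN (hS : S_SEARCH) (hN : S_NAME) (hEU : S_EU) (hEV : S_EV) : S_BIN := by
  classical
  intro D W id x hD hid hidD hx
  have hτ : ∀ w : W, ∃ t : ℕ, t < 2 ^ D ∧
      ∀ k, k < D → (x (piv k t) w = true ↔ t.testBit k = false) := fun w => hS D (fun i => x i w)
  choose τ hτD hτ using hτ
  obtain ⟨EU, hEUd⟩ : ∃ E : ℕ → ℕ → W → Prop, ∀ k i w, E k i w ↔
      (k < D ∧ (∀ j, k < j → i.testBit j = (τ w).testBit j) ∧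
      i.testBit k = true ∧ (τ w).testBit k = false ∧ x i w = false) := ⟨fun k i w => _, fun _ _ _ => Iff.rfl⟩
  obtain ⟨EV, hEVd⟩ : ∃ E : ℕ → ℕ → W → Prop, ∀ k i w, E k i w ↔
      (k < D ∧ (∀ j, k < j → i.testBit j = (τ w).testBit j) ∧
      i.testBit k = false ∧ (τ w).testBit k = true ∧ x i w = true) := ⟨fun k i w => _, fun _ _ _ => Iff.rfl⟩
  obtain ⟨hU1, hU2⟩ := hEU D W x τ hx hτ EU hEUd
  obtain ⟨hV1, hV2⟩ := hEV D W x τ hx hτ EV hEVd
  obtain ⟨XU, PU, idU, SU, EnU, BtU, u1, u2, u3, u4, u5, u6, u7⟩ :=
    hN D W id τ EU hid hidD (fun k i w h => ⟨((hEUd k i w).1 h).1, ((hEUd k i w).1 h).2.1⟩) hU1 hU2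
  obtain ⟨XV, PV, idV, SV, EnV, BtV, v1, v2, v3, v4, v5, v6, v7⟩ :=
    hN D W id τ EV hid hidD (fun k i w h => ⟨((hEVd k i w).1 h).1, ((hEVd k i w).1 h).2.1⟩) hV1 hV2
  refine ⟨fun i => trk (fun p => decide (p = 0)) (bits i) (idU i) (XU i) (PU i) (idV i) (XV i)
      (PV i) (fun _ => false) (fun _ => false),
    fun w => trk (fun _ => false) (bits (τ w)) (bits (id w)) (fun p => decide (p = 0) && x (τ w) w)
      (SU w) (EnU w) (BtU w) (SV w) (EnV w) (BtV w), ?_, ?_, ?_, ?_, ?_⟩
  · intro i z p hi
    apply trk_supp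
    · intro p hp
      have : p = 0 := by simpa using hp
      omega
    · intro p hp
      have := testBit_supp hi p hp
      omega
    · intro p hp
      have := u3 i p hp
      omega
    · intro p hp
      have := u1 i p hp
      omega
    · intro p hp
      exact u2 i p hp
    · intro p hp
      have := v3 i p hp
      omega
    · intro p hp
      have := v1 i p hp
      omega
    · intro p hp
      exact v2 i p hp
    · intro p hp
      exact absurd hp (by simp)
    · intro p hp
      exact absurd hp (by simp)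
  · intro w z p
    apply trk_supp
    · intro p hp
      exact absurd hp (by simp)
    · intro p hp
      have := testBit_supp (hτD w) p hp
      omega
    · intro p hp
      have := testBit_supp (hidD w) p hp
      omega
    · intro p hp
      have : p = 0 := by
        simp only [Bool.and_eq_true, decide_eq_true_eq] at hp
        exact hp.1
      omega
    · intro p hp
      have := u4 w p hp
      omega
    · intro p hp
      have := u5 w p hp
      omega
    · intro p hp
      have := u6 w p hp
      omega
    · intro p hp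
      have := v4 w p hp
      omega
    · intro p hp
      have := v5 w p hp
      omega
    · intro p hp
      have := v6 w p hp
      omega
  · intro i
    simp [trk]
  · intro w
    simp [trk]
  · intro i w hi
    have hU := u7 i w
    have hV := v7 i w
    show x i w = true ↔ (((∀ j, i.testBit j = (τ w).testBit j) ∧
      (decide ((0 : ℕ) = 0) && x (τ w) w) = true) ∨
      ∃ k, (∀ j, k < j → i.testBit j = (τ w).testBit j) ∧
        ((i.testBit k = true ∧ (τ w).testBit k = false ∧
          ¬ Exc (bits i) (idU i) (XU i) (PU i) (bits (τ w)) (bits (id w)) (SU w) (EnU w) (BtU w) k) ∨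
        (i.testBit k = false ∧ (τ w).testBit k = true ∧
          Exc (bits i) (idV i) (XV i) (PV i) (bits (τ w)) (bits (id w)) (SV w) (EnV w) (BtV w) k)))
    by_cases hit : i = τ w
    · subst hit
      constructor
      · intro h
        left
        exact ⟨fun _ => rfl, by simpa using h⟩
      · rintro (⟨_, h⟩ | ⟨k, _, h | h⟩)
        · simpa using h
        · rw [h.1] at h
          exact absurd h.2.1 (by simp)
        · rw [h.1] at h
          exact absurd h.2.1 (by simp)
    · obtain ⟨k, hkD, hk, hkj⟩ := exists_top hi (hτD w) hit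
      constructor
      · intro h
        right
        refine ⟨k, hkj, ?_⟩
        cases hb : i.testBit k
        · right
          have ht : (τ w).testBit k = true := by
            cases hc : (τ w).testBit k
            · rw [hb, hc] at hk
              exact absurd rfl hk
            · rfl
          exact ⟨rfl, ht, (hV k).2 ((hEVd k i w).2 ⟨hkD, hkj, hb, ht, h⟩)⟩
        · left
          have ht : (τ w).testBit k = false := by
            cases hc : (τ w).testBit k
            · rfl
            · rw [hb, hc] at hk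
              exact absurd rfl hk
          refine ⟨rfl, ht, ?_⟩
          intro he
          have := ((hEUd k i w).1 ((hU k).1 he)).2.2.2.2
          rw [h] at this
          exact absurd this (by simp)
      · rintro (⟨h, _⟩ | ⟨k', hk'j, h | h⟩)
        · exact absurd (h k) hk
        · have hkk : k' = k := by
            rcases lt_trichotomy k' k with hlt | heq | hgt
            · exact absurd (hk'j k hlt) hk
            · exact heq
            · have := hkj k' hgt
              rw [h.1, h.2.1] at this
              exact absurd this (by simp)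
          subst hkk
          by_contra hxf
          have hxf' : x i w = false := by
            cases hc : x i w
            · rfl
            · exact absurd hc hxf
          exact h.2.2 ((hU k').2 ((hEUd k' i w).2 ⟨hkD, hkj, h.1, h.2.1, hxf'⟩))
        · exact ((hEVd k' i w).1 ((hV k').1 h.2.2)).2.2.2.2

end R467.IR
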