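import Pool.Agent.R467.IR.Defs

/-! CODE: the code of a pointer. -/

namespace R467.IR

open Classical in
theorem t_CODE : S_CODE := by
  intro T k k' k₀ s hk h1 h2 hT hz
  refine ⟨fun o => decide (o + k = k₀ + 2 * (k - k') ∨
    ∃ j, j ≤ k + 2 * (k - k') ∧ k ≤ j + 3 * (k - k') ∧ s j = true ∧
      o = 4 * (k - k') + 1 + (j + 3 * (k - k') - k)), ?_⟩
  intro P hP
  have hg : 1 ≤ k - k' := by omega
  -- small offsets
  have hsmall : ∀ k₁, k ≤ k₁ + 2 * (k - k') → k₁ ≤ k + 2 * (k - k') →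
      (P (11 * k' + (k₁ + 2 * (k - k') - k)) = true ↔ k₁ = k₀) := by
    intro k₁ h3 h4
    rw [hP _ (by omega), decide_eq_true_iff]
    constructor
    · rintro (h | ⟨j, hj1, hj2, -, hj3⟩)
      · omega
      · omega
    · rintro rfl
      exact Or.inl (by omega)
  have hbig : ∀ j, j ≤ k + 2 * (k - k') → k ≤ j + 3 * (k - k') →
      (P (11 * k' + (4 * (k - k') + 1 + (j + 3 * (k - k') - k))) = true ↔ s j = true) := by
    intro j h3 h4
    rw [hP _ (by omega), decide_eq_true_iff]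
    constructor
    · rintro (h | ⟨j', hj1, hj2, hs, hj3⟩)
      · omega
      · have : j' = j := by omega
        rwa [this] at hs
    · intro hs
      exact Or.inr ⟨j, h3, h4, hs, rfl⟩
  have hs' : ∀ j, j ≤ k + 2 * (k - k') → (s j = true ↔ k ≤ j + 3 * (k - k') ∧
      P (11 * k' + (4 * (k - k') + 1 + (j + 3 * (k - k') - k))) = true) := by
    intro j hj
    by_cases h4 : k ≤ j + 3 * (k - k')
    · rw [hbig j hj h4]
      exact ⟨fun h => ⟨h4, h⟩, fun h => h.2⟩
    · have := hz j (by omega)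
      rw [this]
      exact ⟨fun h => absurd h (by simp), fun h => absurd h.1 h4⟩
  refine ⟨⟨h1, h2, (hsmall k₀ h1 h2).2 rfl, hT, hs'⟩, ?_⟩
  rintro k₁ s₁ ⟨g1, g2, g3, g4, g5⟩
  refine ⟨(hsmall k₁ g1 g2).1 g3, ?_⟩
  funext j
  by_cases hj : j ≤ k + 2 * (k - k')
  · have h5 := (g5 j hj).trans (hs' j hj).symm
    cases h6 : s₁ j <;> cases h7 : s j <;> simp_all
  · rw [g4 j (by omega), hT j (by omega)]

end R467.IR
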