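import Pool.Agent.R467.IR.Defs

namespace R467.IR

theorem t_CODE : S_CODE := by
  classical
  intro T k k' k₀ s hk h1 h2 h3 h4
  obtain ⟨g, hg⟩ : ∃ g, g = k - k' := ⟨_, rfl⟩
  rw [← hg] at h1 h2 h3 h4
  have hg1 : 1 ≤ g := by omega
  refine ⟨fun o => decide (o = k₀ + 2 * g - k ∨ ∃ j, j ≤ k + 2 * g ∧ k ≤ j + 3 * g ∧ s j = true ∧
    o = 4 * g + 1 + (j + 3 * g - k)), ?_⟩
  intro P hP
  have hpt : Points T P k k' k₀ s := by
    unfold Points
    rw [← hg]
    rw [← hg] at hP
    refine ⟨h1, h2, ?_, h3, ?_⟩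
    · rw [hP _ (by omega)]
      simp
    · intro j hj
      constructor
      · intro hs
        have hkj : k ≤ j + 3 * g := by
          by_contra hc
          rw [h4 j (by omega)] at hs
          exact absurd hs (by simp)
        refine ⟨hkj, ?_⟩
        rw [hP _ (by omega)]
        simp only [decide_eq_true_eq]
        right
        exact ⟨j, hj, hkj, hs, rfl⟩
      · rintro ⟨hkj, hp⟩
        rw [hP _ (by omega)] at hp
        simp only [decide_eq_true_eq] at hp
        rcases hp with h | ⟨j', hj', hkj', hs', he⟩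
        · omega
        · have : j = j' := by omega
          rw [this]
          exact hs'
  refine ⟨hpt, ?_⟩
  intro k₁ s₁ hp1
  unfold Points at hp1 hpt
  rw [← hg] at hp1 hpt hP
  obtain ⟨a1, a2, a3, a4, a5⟩ := hp1
  obtain ⟨b1, b2, b3, b4, b5⟩ := hpt
  constructor
  · rw [hP _ (by omega)] at a3
    simp only [decide_eq_true_eq] at a3
    rcases a3 with h | ⟨j', _, _, _, he⟩
    · omega
    · omega
  · funext j
    by_cases hj : k + 2 * g < j
    · rw [a4 j hj, b4 j hj]
    · have e1 := a5 j (by omega)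
      have e2 := b5 j (by omega)
      have e3 : s₁ j = true ↔ s j = true := e1.trans e2.symm
      cases h5 : s₁ j <;> cases h6 : s j <;> simp_all

end R467.IR
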