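import Pool.Agent.R467.IR.Bin

namespace R467.IR

theorem t_CORE (hF : S_FREE) (hO : S_ORD) (hB : S_BIN) : S_CORE := by
  classical
  intro V _ G black hcol hfree
  have hfree' := hF V G black hcol hfree
  set D := Nat.log 2 (Fintype.card V) + 1 with hD
  have hcard : Fintype.card V < 2 ^ D := Nat.lt_pow_succ_log_self (by norm_num) _
  obtain ⟨pos, x, hpos, hxR, hx⟩ := hO {v : V // black v} {v : V // ¬ black v}
    (fun b w => G.Adj b.1 w.1)
    (fun b b' w₁ w₂ w₃ w₄ h12 h34 a1 a2 a3 a4 a5 a6 a7 a8 =>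
      hfree' b.1 b'.1 w₁.1 w₂.1 w₃.1 w₄.1 b.2 b'.2 (fun h => h12 (Subtype.ext h))
        (fun h => h34 (Subtype.ext h)) a1 a2 a3 a4 a5 a6 a7 a8)
  have hposD : ∀ b, pos b < 2 ^ D := fun b =>
    lt_of_lt_of_le (hpos b) ((Fintype.card_subtype_le _).trans hcard.le)
  obtain ⟨A, B, hA, hBs, hA0, hB0, hdec⟩ := hB D {v : V // ¬ black v}
    (fun w => (Fintype.equivFin V w.1 : ℕ)) x (by omega)
    (fun w w' h => Subtype.ext ((Fintype.equivFin V).injective (Fin.ext h)))
    (fun w => lt_trans (Fintype.equivFin V w.1).2 hcard) hx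
  refine ⟨fun v => if h : black v then A (pos ⟨v, h⟩) else B ⟨v, h⟩, ?_, ?_⟩
  · intro v z p
    by_cases h : black v
    · simp only [h, dif_pos]
      exact hA _ z p (hposD _)
    · simp only [h, dif_neg, not_false_eq_true]
      exact hBs _ z p
  · intro u v huv
    by_cases hu : black u <;> by_cases hv : black v
    · simp only [hu, hv, dif_pos, DecF, hA0]
      constructor
      · intro h
        exact absurd hv ((hcol u v h).1 hu)
      · rintro (h | h)
        · exact absurd h.2.1 (by simp)
        · exact absurd h.1 (by simp)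
    · simp only [hu, hv, dif_pos, dif_neg, not_false_eq_true, DecF, hA0, hB0]
      rw [← hdec _ ⟨v, hv⟩ (hposD ⟨u, hu⟩), hxR]
      simp
    · simp only [hu, hv, dif_pos, dif_neg, not_false_eq_true, DecF, hA0, hB0]
      rw [← hdec _ ⟨u, hu⟩ (hposD ⟨v, hv⟩), hxR]
      simp [G.adj_comm]
    · simp only [hu, hv, dif_neg, not_false_eq_true, DecF, hB0]
      constructor
      · intro h
        exact absurd ((hcol u v h).2 hv) hu
      · rintro (h | h)
        · exact absurd h.1 (by simp)
        · exact absurd h.2.1 (by simp)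

theorem t_FINAL (hC : S_CORE) (hE : S_ENC) :
    ∃ (c : ℝ) (f : List Bool → List Bool → Bool),
      ∀ (V : Type) [Fintype V] (G : SimpleGraph V) (black : V → Prop),
        (∀ x y, G.Adj x y → (black x ↔ ¬ black y)) →
        (¬ ∃ φ : twoP3 ↪g G, black (φ 1) ∧ black (φ 4)) →
        ∃ label : V → List Bool,
          (∀ v, ((label v).length : ℝ) ≤ c * Real.logb 2 (Fintype.card V)) ∧
          ∀ x y, x ≠ y → (G.Adj x y ↔ f (label x) (label y) = true) := by
  classical
  obtain ⟨enc, dec, hlen, hdec⟩ := hE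
  refine ⟨220, fun a b => decide (DecF (dec a) (dec b)), ?_⟩
  intro V _ G black hcol hfree
  by_cases h1 : Fintype.card V ≤ 1
  · refine ⟨fun _ => [], ?_, ?_⟩
    · intro v
      have : Fintype.card V = 1 := by
        have := Fintype.card_pos_iff.2 ⟨v⟩
        omega
      simp [this]
    · intro x y hxy
      exact absurd (Fintype.card_le_one_iff.1 h1 x y) hxy
  · obtain ⟨L, hL, hadj⟩ := hC V G black hcol hfree
    push Not at h1
    have hcast : ((Nat.log 2 (Fintype.card V) : ℕ) : ℝ) ≤ Real.logb 2 (Fintype.card V) := by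
      exact_mod_cast Real.natLog_le_logb (Fintype.card V) 2
    have hone : (1 : ℝ) ≤ Real.logb 2 (Fintype.card V) := by
      have h2 : 1 ≤ Nat.log 2 (Fintype.card V) := Nat.log_pos (by norm_num) h1
      have : ((1 : ℕ) : ℝ) ≤ ((Nat.log 2 (Fintype.card V) : ℕ) : ℝ) := by exact_mod_cast h2
      simpa using this.trans hcast
    refine ⟨fun v => enc (Nat.log 2 (Fintype.card V) + 1) (L v), ?_, ?_⟩
    · intro v
      rw [hlen]
      push_cast
      linarith
    · intro x y hxy
      simp only [decide_eq_true_eq]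
      rw [hdec _ (L x) (by omega) (hL x), hdec _ (L y) (by omega) (hL y)]
      exact hadj x y hxy

end R467.IR
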