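import Mathlib

/-!
Implicit representation of bipartite graphs without one-sided induced 2P_3 (MP_e50eb5_co).
Definitions and statements of the pieces.
-/

namespace R467.IR

/-- The graph `2P_3` on `{0,…,5}`: the paths `0-1-2` and `3-4-5`; the centres are `1` and `4`. -/
def twoP3 : SimpleGraph (Fin 6) :=
  SimpleGraph.fromRel fun a b =>
    (a = 0 ∧ b = 1) ∨ (a = 1 ∧ b = 2) ∨ (a = 3 ∧ b = 4) ∨ (a = 4 ∧ b = 5)

/-- pivot of the dyadic block of level `k` containing `i` -/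
def piv (k i : ℕ) : ℕ := (i / 2 ^ (k + 1) * 2 + 1) * 2 ^ k

/-- `k'` is the next element of `X` below `k` -/
def IsNext (X : ℕ → Bool) (k k' : ℕ) : Prop :=
  k' < k ∧ X k' = true ∧ ∀ j, k' < j → j < k → X j = false

/-- the track `P` points, in the window of `(k', k)`, to the pair `(k₀, s)` -/
def Points (T P : ℕ → Bool) (k k' k₀ : ℕ) (s : ℕ → Bool) : Prop :=
  k ≤ k₀ + 2 * (k - k') ∧ k₀ ≤ k + 2 * (k - k') ∧
  P (11 * k' + (k₀ + 2 * (k - k') - k)) = true ∧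
  (∀ j, k + 2 * (k - k') < j → s j = T j) ∧
  (∀ j, j ≤ k + 2 * (k - k') → (s j = true ↔ k ≤ j + 3 * (k - k') ∧
    P (11 * k' + (4 * (k - k') + 1 + (j + 3 * (k - k') - k))) = true))

/-- the pair `(k₀, s)` is registered in the tracks `S, En, Bt` -/
def Match (T S En Bt : ℕ → Bool) (k₀ : ℕ) (s : ℕ → Bool) : Prop :=
  S k₀ = true ∧ (∀ j, k₀ < j → s j = T j) ∧
  ∃ e, e ≤ k₀ ∧ En e = true ∧ (∀ j, e < j → j ≤ k₀ → En j = false) ∧
    (∀ j, e ≤ j → j ≤ k₀ → s j = Bt j) ∧ (∀ j, j < e → s j = false)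

/-- decoding of an exception at level `k` -/
def Exc (Ti idi X P Tw idw S En Bt : ℕ → Bool) (k : ℕ) : Prop :=
  X k = true ∧ (((∀ j, j < k → X j = false) ∧ idi = idw) ∨
    ∃ k' k₀ s, IsNext X k k' ∧ Points Ti P k k' k₀ s ∧ Match Tw S En Bt k₀ s)

/-- decoding of the adjacency of a black label `A` and a white label `B` -/
def Dec (A B : ℕ → ℕ → Bool) : Prop :=
  ((∀ j, A 1 j = B 1 j) ∧ B 3 0 = true) ∨
  ∃ k, (∀ j, k < j → A 1 j = B 1 j) ∧
    ((A 1 k = true ∧ B 1 k = false ∧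
        ¬ Exc (A 1) (A 2) (A 3) (A 4) (B 1) (B 2) (B 4) (B 5) (B 6) k) ∨
     (A 1 k = false ∧ B 1 k = true ∧
        Exc (A 1) (A 5) (A 6) (A 7) (B 1) (B 2) (B 7) (B 8) (B 9) k))

/-- the universal decoder on tracks -/
def DecF (A B : ℕ → ℕ → Bool) : Prop :=
  (A 0 0 = true ∧ B 0 0 = false ∧ Dec A B) ∨ (A 0 0 = false ∧ B 0 0 = true ∧ Dec B A)

/-- bits of a natural number -/
def bits (n : ℕ) : ℕ → Bool := fun j => n.testBit j

/-! ## Statements -/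

/-- PIV: elementary properties of the pivot. -/
def S_PIV : Prop := ∀ k i : ℕ,
  (∀ j, (piv k i).testBit j = if j < k then false else if j = k then true else i.testBit j) ∧
  (i.testBit k = true → piv k i ≤ i) ∧ (i.testBit k = false → i ≤ piv k i) ∧
  (∀ D, k < D → i < 2 ^ D → piv k i < 2 ^ D) ∧
  (∀ i', (∀ j, k < j → i.testBit j = i'.testBit j) → piv k i = piv k i')

/-- SEARCH: binary search path. -/
def S_SEARCH : Prop := ∀ (D : ℕ) (y : ℕ → Bool), ∃ t : ℕ, t < 2 ^ D ∧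
  ∀ k, k < D → (y (piv k t) = true ↔ t.testBit k = false)

/-- VIT: Vitali covering with the smallest intervals first. -/
def S_VIT : Prop := ∀ (R : Finset ℕ) (g : ℕ → ℕ), ∃ M : Finset ℕ, M ⊆ R ∧
  (∀ a ∈ M, ∀ b ∈ M, a ≠ b → a + g a + g b < b ∨ b + g a + g b < a) ∧
  (∀ a ∈ R, ∃ b ∈ M, g b ≤ g a ∧ a ≤ b + g a + g b ∧ b ≤ a + g a + g b)

/-- NW: labels of the whites (for one white `w`, whose search path is `t`; `E k s` means that
`w` is the exception of level `k` at the time `s`). -/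
def S_NW : Prop := ∀ (D t : ℕ) (E : ℕ → ℕ → Prop),
  (∀ k s, E k s → k < D ∧ ∀ j, k < j → s.testBit j = t.testBit j) →
  ∃ S En Bt : ℕ → Bool,
    (∀ j, S j = true → j < D) ∧ (∀ j, En j = true → j < D) ∧ (∀ j, Bt j = true → j < D) ∧
    (∀ k₀ s, Match (bits t) S En Bt k₀ s → ∃ u, s = bits u ∧ E k₀ u) ∧
    (∀ k g s, 1 ≤ g → g ≤ k → E k s → s.testBit (k - g) = true →
      (∀ j, j < k - g → s.testBit j = false) →
      ∃ k₀ u, Match (bits t) S En Bt k₀ (bits u) ∧ k ≤ k₀ + 2 * g ∧ k₀ ≤ k + 2 * g ∧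
        ∀ j, j + 3 * g < k → u.testBit j = false)

/-- PACK: packing the codes of the windows in one track. -/
def S_PACK : Prop := ∀ (D : ℕ) (X : ℕ → Bool) (c : ℕ → ℕ → Bool),
  (∀ j, X j = true → j < D) →
  ∃ P : ℕ → Bool, (∀ p, P p = true → p < 11 * D) ∧
    ∀ k k', X k = true → IsNext X k k' → ∀ o, o < 11 * (k - k') → P (11 * k' + o) = c k o

/-- CODE: the code of a pointer. -/
def S_CODE : Prop := ∀ (T : ℕ → Bool) (k k' k₀ : ℕ) (s : ℕ → Bool),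
  k' < k → k ≤ k₀ + 2 * (k - k') → k₀ ≤ k + 2 * (k - k') →
  (∀ j, k + 2 * (k - k') < j → s j = T j) →
  (∀ j, j + 3 * (k - k') < k → s j = false) →
  ∃ c : ℕ → Bool, ∀ P : ℕ → Bool, (∀ o, o < 11 * (k - k') → P (11 * k' + o) = c o) →
    Points T P k k' k₀ s ∧ ∀ k₁ s₁, Points T P k k' k₁ s₁ → k₁ = k₀ ∧ s₁ = s

/-- NAME: the naming theorem. -/
def S_NAME : Prop := ∀ (D : ℕ) (W : Type) (id τ : W → ℕ) (E : ℕ → ℕ → W → Prop),
  Function.Injective id → (∀ w, id w < 2 ^ D) →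
  (∀ k i w, E k i w → k < D ∧ ∀ j, k < j → i.testBit j = (τ w).testBit j) →
  (∀ k i w w', E k i w → E k i w' → w = w') →
  (∀ k k' i w w', k' < k → E k i w → E k' i w' → E k (piv k' i) w) →
  ∃ (X P idb : ℕ → ℕ → Bool) (S En Bt : W → ℕ → Bool),
    (∀ i j, X i j = true → j < D) ∧ (∀ i j, P i j = true → j < 11 * D) ∧
    (∀ i j, idb i j = true → j < D) ∧
    (∀ w j, S w j = true → j < D) ∧ (∀ w j, En w j = true → j < D) ∧
    (∀ w j, Bt w j = true → j < D) ∧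
    ∀ i w k, (Exc (bits i) (idb i) (X i) (P i) (bits (τ w)) (bits (id w)) (S w) (En w) (Bt w) k
      ↔ E k i w)

/-- EU: the relation of the zero-type exceptions. -/
def S_EU : Prop := ∀ (D : ℕ) (W : Type) (x : ℕ → W → Bool) (τ : W → ℕ),
  (∀ i j w w', i ≤ j → w ≠ w' → ¬ (x i w = true ∧ x i w' = true ∧ x j w = false ∧ x j w' = false)) →
  (∀ w k, k < D → (x (piv k (τ w)) w = true ↔ (τ w).testBit k = false)) →
  ∀ E : ℕ → ℕ → W → Prop,
  (∀ k i w, E k i w ↔ (k < D ∧ (∀ j, k < j → i.testBit j = (τ w).testBit j) ∧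
    i.testBit k = true ∧ (τ w).testBit k = false ∧ x i w = false)) →
  (∀ k i w w', E k i w → E k i w' → w = w') ∧
  (∀ k k' i w w', k' < k → E k i w → E k' i w' → E k (piv k' i) w)

/-- EV: the relation of the one-type exceptions. -/
def S_EV : Prop := ∀ (D : ℕ) (W : Type) (x : ℕ → W → Bool) (τ : W → ℕ),
  (∀ i j w w', i ≤ j → w ≠ w' → ¬ (x i w = true ∧ x i w' = true ∧ x j w = false ∧ x j w' = false)) →
  (∀ w k, k < D → (x (piv k (τ w)) w = true ↔ (τ w).testBit k = false)) →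
  ∀ E : ℕ → ℕ → W → Prop,
  (∀ k i w, E k i w ↔ (k < D ∧ (∀ j, k < j → i.testBit j = (τ w).testBit j) ∧
    i.testBit k = false ∧ (τ w).testBit k = true ∧ x i w = true)) →
  (∀ k i w w', E k i w → E k i w' → w = w') ∧
  (∀ k k' i w w', k' < k → E k i w → E k' i w' → E k (piv k' i) w)

/-- BIN: labels for a 0/1 matrix with almost nested rows. -/
def S_BIN : Prop := ∀ (D : ℕ) (W : Type) (id : W → ℕ) (x : ℕ → W → Bool),
  1 ≤ D → Function.Injective id → (∀ w, id w < 2 ^ D) →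
  (∀ i j w w', i ≤ j → w ≠ w' → ¬ (x i w = true ∧ x i w' = true ∧ x j w = false ∧ x j w' = false)) →
  ∃ (A : ℕ → ℕ → ℕ → Bool) (B : W → ℕ → ℕ → Bool),
    (∀ i z p, i < 2 ^ D → A i z p = true → z < 10 ∧ p < 11 * D) ∧
    (∀ w z p, B w z p = true → z < 10 ∧ p < 11 * D) ∧
    (∀ i, A i 0 0 = true) ∧ (∀ w, B w 0 0 = false) ∧
    ∀ i w, i < 2 ^ D → (x i w = true ↔ Dec (A i) (B w))

/-- ORD: ordering the black vertices by degree. -/
def S_ORD : Prop := ∀ (Bk W : Type) [Fintype Bk] [Fintype W] (R : Bk → W → Prop),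
  (∀ b b' : Bk, ∀ w₁ w₂ w₃ w₄ : W, w₁ ≠ w₂ → w₃ ≠ w₄ → R b w₁ → R b w₂ → ¬ R b' w₁ → ¬ R b' w₂ →
    R b' w₃ → R b' w₄ → ¬ R b w₃ → ¬ R b w₄ → False) →
  ∃ (pos : Bk → ℕ) (x : ℕ → W → Bool), (∀ b, pos b < Fintype.card Bk) ∧
    (∀ b w, x (pos b) w = true ↔ R b w) ∧
    ∀ i j w w', i ≤ j → w ≠ w' →
      ¬ (x i w = true ∧ x i w' = true ∧ x j w = false ∧ x j w' = false)

/-- ENC: tracks as binary strings. -/
def S_ENC : Prop := ∃ (enc : ℕ → (ℕ → ℕ → Bool) → List Bool) (dec : List Bool → ℕ → ℕ → Bool),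
  (∀ D L, (enc D L).length = 110 * D) ∧
  ∀ D L, 1 ≤ D → (∀ z p, L z p = true → z < 10 ∧ p < 11 * D) → dec (enc D L) = L

/-- FREE: translation of the absence of one-sided copies. -/
def S_FREE : Prop := ∀ (V : Type) (G : SimpleGraph V) (black : V → Prop),
  (∀ x y, G.Adj x y → (black x ↔ ¬ black y)) →
  (¬ ∃ φ : twoP3 ↪g G, black (φ 1) ∧ black (φ 4)) →
  ∀ b b' w₁ w₂ w₃ w₄ : V, black b → black b' → w₁ ≠ w₂ → w₃ ≠ w₄ →
    G.Adj b w₁ → G.Adj b w₂ → ¬ G.Adj b' w₁ → ¬ G.Adj b' w₂ →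
    G.Adj b' w₃ → G.Adj b' w₄ → ¬ G.Adj b w₃ → ¬ G.Adj b w₄ → False

/-- CORE: labels in tracks. -/
def S_CORE : Prop := ∀ (V : Type) [Fintype V] (G : SimpleGraph V) (black : V → Prop),
  (∀ x y, G.Adj x y → (black x ↔ ¬ black y)) →
  (¬ ∃ φ : twoP3 ↪g G, black (φ 1) ∧ black (φ 4)) →
  ∃ L : V → ℕ → ℕ → Bool,
    (∀ v z p, L v z p = true → z < 10 ∧ p < 11 * (Nat.log 2 (Fintype.card V) + 1)) ∧
    ∀ x y, x ≠ y → (G.Adj x y ↔ DecF (L x) (L y))

end R467.IR
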