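import Pool.Agent.R467.IR.Defs

set_option autoImplicit false

namespace R467.IR

theorem t_ENC : S_ENC := by
  refine ⟨fun D L => List.ofFn (fun n : Fin (110 * D) => L (n / (11 * D)) (n % (11 * D))),
    fun a z p => if p < 11 * (a.length / 110) then
      a.getD (z * (11 * (a.length / 110)) + p) false else false, ?_, ?_⟩
  · intro D L
    exact List.length_ofFn
  · intro D L hD hL
    funext z p
    simp only [List.length_ofFn]
    rw [Nat.mul_div_cancel_left D (by norm_num : 0 < 110)]
    by_cases hp : p < 11 * D
    · rw [if_pos hp]
      by_cases hz : z < 10
      · have hlt : z * (11 * D) + p < 110 * D := by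
          have h1 : (z + 1) * (11 * D) ≤ 10 * (11 * D) := Nat.mul_le_mul_right _ (by omega)
          nlinarith
        rw [List.getD_eq_getElem _ _ (by rw [List.length_ofFn]; exact hlt), List.getElem_ofFn]
        have h2 : 0 < 11 * D := by omega
        have h3 : (z * (11 * D) + p) / (11 * D) = z := by
          rw [Nat.mul_comm, Nat.mul_add_div h2, Nat.div_eq_of_lt hp, Nat.add_zero]
        have h4 : (z * (11 * D) + p) % (11 * D) = p := by
          rw [Nat.mul_comm, Nat.mul_add_mod, Nat.mod_eq_of_lt hp]
        simp only [h3, h4]
      · have hge : 110 * D ≤ z * (11 * D) + p := by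
          have h1 : 10 * (11 * D) ≤ z * (11 * D) := Nat.mul_le_mul_right _ (by omega)
          omega
        rw [List.getD_eq_default _ _ (by rw [List.length_ofFn]; exact hge)]
        by_contra hcon
        have h5 : L z p = true := by
          cases h : L z p
          · exact absurd h.symm hcon
          · rfl
        exact hz (hL z p h5).1
    · rw [if_neg hp]
      by_contra hcon
      have h5 : L z p = true := by
        cases h : L z p
        · exact absurd h.symm hcon
        · rfl
      exact hp (hL z p h5).2

end R467.IR
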