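import Pool.Agent.R467.IR.Defs

set_option autoImplicit false

namespace R467.IR

theorem t_EU : S_PIV → S_EU := by
  intro hP D W x τ hx hτ E hE
  have hx0 : ∀ (w : W) (i k : ℕ), k < D → (∀ j, k < j → i.testBit j = (τ w).testBit j) →
      (τ w).testBit k = false → x (piv k i) w = true := by
    intro w i k hk h1 h2
    rw [(hP k i).2.2.2.2 (τ w) h1]
    exact (hτ w k hk).2 h2
  constructor
  · intro k i w w' h h'
    obtain ⟨hk, h1, h2, h3, h4⟩ := (hE k i w).1 h
    obtain ⟨_, h1', _, h3', h4'⟩ := (hE k i w').1 h'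
    by_contra hne
    exact hx (piv k i) i w w' ((hP k i).2.1 h2) hne
      ⟨hx0 w i k hk h1 h3, hx0 w' i k hk h1' h3', h4, h4'⟩
  · intro k k' i w w' hkk h h'
    obtain ⟨hk, h1, h2, h3, h4⟩ := (hE k i w).1 h
    obtain ⟨hk', h1', h2', h3', h4'⟩ := (hE k' i w').1 h'
    have hbit : ∀ j, k' < j → (piv k' i).testBit j = i.testBit j := by
      intro j hj
      rw [(hP k' i).1 j, if_neg (by omega), if_neg (by omega)]
    have hne : w ≠ w' := by
      rintro rfl
      have e1 := h1' k hkk
      rw [h2, h3] at e1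
      cases e1
    refine (hE k (piv k' i) w).2 ⟨hk, fun j hj => ?_, ?_, h3, ?_⟩
    · rw [hbit j (by omega)]
      exact h1 j hj
    · rw [hbit k hkk]
      exact h2
    · by_contra hcon
      have hcon' : x (piv k' i) w = true := by
        rw [Bool.not_eq_false] at hcon
        exact hcon
      exact hx (piv k' i) i w w' ((hP k' i).2.1 h2') hne
        ⟨hcon', hx0 w' i k' hk' h1' h3', h4, h4'⟩

theorem t_EV : S_PIV → S_EV := by
  intro hP D W x τ hx hτ E hE
  have hx0 : ∀ (w : W) (i k : ℕ), k < D → (∀ j, k < j → i.testBit j = (τ w).testBit j) →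
      (τ w).testBit k = true → x (piv k i) w = false := by
    intro w i k hk h1 h2
    rw [(hP k i).2.2.2.2 (τ w) h1]
    rw [← Bool.not_eq_true, (hτ w k hk), h2]
    simp
  constructor
  · intro k i w w' h h'
    obtain ⟨hk, h1, h2, h3, h4⟩ := (hE k i w).1 h
    obtain ⟨_, h1', _, h3', h4'⟩ := (hE k i w').1 h'
    by_contra hne
    exact hx i (piv k i) w w' ((hP k i).2.2.1 h2) hne
      ⟨h4, h4', hx0 w i k hk h1 h3, hx0 w' i k hk h1' h3'⟩
  · intro k k' i w w' hkk h h'
    obtain ⟨hk, h1, h2, h3, h4⟩ := (hE k i w).1 h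
    obtain ⟨hk', h1', h2', h3', h4'⟩ := (hE k' i w').1 h'
    have hbit : ∀ j, k' < j → (piv k' i).testBit j = i.testBit j := by
      intro j hj
      rw [(hP k' i).1 j, if_neg (by omega), if_neg (by omega)]
    have hne : w ≠ w' := by
      rintro rfl
      have e1 := h1' k hkk
      rw [h2, h3] at e1
      cases e1
    refine (hE k (piv k' i) w).2 ⟨hk, fun j hj => ?_, ?_, h3, ?_⟩
    · rw [hbit j (by omega)]
      exact h1 j hj
    · rw [hbit k hkk]
      exact h2
    · by_contra hcon
      have hcon' : x (piv k' i) w = false := by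
        rw [Bool.not_eq_true] at hcon
        exact hcon
      exact hx i (piv k' i) w w' ((hP k' i).2.2.1 h2') hne
        ⟨h4, h4', hcon', hx0 w' i k' hk' h1' h3'⟩

end R467.IR
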