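import Pool.Agent.R467.IR.Defs

set_option autoImplicit false

namespace R467.IR

theorem t_FREE : S_FREE := by
  intro V G black hG hno b b' w₁ w₂ w₃ w₄ hb hb' h12 h34 a1 a2 n1 n2 a3 a4 n3 n4
  apply hno
  have c1 : ¬ black w₁ := (hG _ _ a1).1 hb
  have c2 : ¬ black w₂ := (hG _ _ a2).1 hb
  have c3 : ¬ black w₃ := (hG _ _ a3).1 hb'
  have c4 : ¬ black w₄ := (hG _ _ a4).1 hb'
  have hww : ∀ x y, ¬ black x → ¬ black y → ¬ G.Adj x y := fun x y hx hy h =>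
    hx ((hG x y h).2 hy)
  have hbb : ∀ x y, black x → black y → ¬ G.Adj x y := fun x y hx hy h =>
    (hG x y h).1 hx hy
  have hbw : ∀ x y, black x → ¬ black y → x ≠ y := fun x y hx hy h => hy (h ▸ hx)
  have hwb : ∀ x y, ¬ black x → black y → x ≠ y := fun x y hx hy h => hx (h ▸ hy)
  have d13 : w₁ ≠ w₃ := fun h => n3 (h ▸ a1)
  have d14 : w₁ ≠ w₄ := fun h => n4 (h ▸ a1)
  have d23 : w₂ ≠ w₃ := fun h => n3 (h ▸ a2)
  have d24 : w₂ ≠ w₄ := fun h => n4 (h ▸ a2)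
  have dbb : b ≠ b' := fun h => n1 (h ▸ a1)
  have inj : Function.Injective ![w₁, b, w₂, w₃, b', w₄] := by
    intro x y hxy
    fin_cases x <;> fin_cases y <;> simp_all
  refine ⟨⟨⟨![w₁, b, w₂, w₃, b', w₄], inj⟩, ?_⟩, hb, hb'⟩
  intro x y
  have g1 := G.adj_comm
  fin_cases x <;> fin_cases y <;> simp [twoP3, SimpleGraph.fromRel_adj, *]

end R467.IR
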