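import Pool.Agent.R467.IR.Defs

/-! NAME: the naming theorem. -/

namespace R467.IR

lemma isNext_unique {X : ℕ → Bool} {k a b : ℕ} (ha : IsNext X k a) (hb : IsNext X k b) : a = b := by
  rcases lt_trichotomy a b with h | h | h
  · exfalso
    have := ha.2.2 b h hb.1
    rw [hb.2.1] at this
    exact absurd this (by simp)
  · exact h
  · exfalso
    have := hb.2.2 a h ha.1
    rw [ha.2.1] at this
    exact absurd this (by simp)

open Classical in
lemma exists_isNext {X : ℕ → Bool} {k : ℕ} (h : ¬ ∀ j, j < k → X j = false) :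
    ∃ k', IsNext X k k' := by
  push Not at h
  obtain ⟨j, hj, hX⟩ := h
  have hX' : X j = true := by simpa using hX
  let F := (Finset.range k).filter (fun j => X j = true)
  have hF : F.Nonempty := ⟨j, Finset.mem_filter.2 ⟨Finset.mem_range.2 hj, hX'⟩⟩
  have hmem := Finset.mem_filter.1 (F.max'_mem hF)
  refine ⟨F.max' hF, Finset.mem_range.1 hmem.1, hmem.2, ?_⟩
  intro i h1 h2
  by_contra hi
  have hi' : X i = true := by simpa using hi
  have := F.le_max' i (Finset.mem_filter.2 ⟨Finset.mem_range.2 h2, hi'⟩)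
  omega

lemma bits_inj {a b : ℕ} (h : bits a = bits b) : a = b :=
  Nat.eq_of_testBit_eq fun i => congrFun h i

open Classical in
theorem t_NAME : S_PIV → S_NW → S_PACK → S_CODE → S_NAME := by
  intro hPIV hNW hPACK hCODE D W id τ E hid hidD hE E1 E2
  let X : ℕ → ℕ → Bool := fun i k => decide (∃ w, E k i w)
  have hX : ∀ i k, X i k = true ↔ ∃ w, E k i w := fun i k => decide_eq_true_iff
  have hXD : ∀ i j, X i j = true → j < D := by
    intro i j hj
    obtain ⟨w, hw⟩ := (hX i j).1 hj
    exact (hE j i w hw).1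
  let idb : ℕ → ℕ → Bool := fun i j =>
    decide (∃ k w, E k i w ∧ (∀ j', j' < k → X i j' = false) ∧ (id w).testBit j = true)
  have hidb : ∀ i k w, E k i w → (∀ j', j' < k → X i j' = false) → idb i = bits (id w) := by
    intro i k w hw hlow
    funext j
    change idb i j = (id w).testBit j
    cases hb : (id w).testBit j with
    | true => exact decide_eq_true ⟨k, w, hw, hlow, hb⟩
    | false =>
      refine decide_eq_false ?_
      rintro ⟨k1, w1, hw1, hlow1, hb1⟩
      have hk : k1 = k := by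
        rcases lt_trichotomy k1 k with h | h | h
        · have h1 := hlow k1 h
          have h2 := (hX i k1).2 ⟨w1, hw1⟩
          rw [h1] at h2
          exact absurd h2 (by simp)
        · exact h
        · have h1 := hlow1 k h
          have h2 := (hX i k).2 ⟨w, hw⟩
          rw [h1] at h2
          exact absurd h2 (by simp)
      subst hk
      have hww := E1 k1 i w1 w hw1 hw
      subst hww
      rw [hb] at hb1
      exact absurd hb1 (by simp)
  -- labels of the whites
  have hlab : ∀ w, ∃ S En Bt : ℕ → Bool,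
    (∀ j, S j = true → j < D) ∧ (∀ j, En j = true → j < D) ∧ (∀ j, Bt j = true → j < D) ∧
    (∀ k₀ s, Match (bits (τ w)) S En Bt k₀ s → ∃ u, s = bits u ∧ E k₀ u w) ∧
    (∀ k g s, 1 ≤ g → g ≤ k → E k s w → s.testBit (k - g) = true →
      (∀ j, j < k - g → s.testBit j = false) →
      ∃ k₀ u, Match (bits (τ w)) S En Bt k₀ (bits u) ∧ k ≤ k₀ + 2 * g ∧ k₀ ≤ k + 2 * g ∧
        ∀ j, j + 3 * g < k → u.testBit j = false) := fun w =>
    hNW D (τ w) (fun k s => E k s w) (fun k s h => hE k s w h)
  choose S En Bt hS hEn hBt hsound hcompl using hlab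
  -- pointers
  have hQ : ∀ i k, ∃ (k₀ u : ℕ) (c : ℕ → Bool), ∀ k' w, IsNext (X i) k k' → E k i w →
      Match (bits (τ w)) (S w) (En w) (Bt w) k₀ (bits u) ∧
      ∀ P : ℕ → Bool, (∀ o, o < 11 * (k - k') → P (11 * k' + o) = c o) →
        Points (bits i) P k k' k₀ (bits u) ∧
        ∀ k₁ s₁, Points (bits i) P k k' k₁ s₁ → k₁ = k₀ ∧ s₁ = bits u := by
    intro i k
    by_cases h : ∃ k' w, IsNext (X i) k k' ∧ E k i w
    · obtain ⟨k', w, hn, hw⟩ := h
      obtain ⟨w', hw'⟩ := (hX i k').1 hn.2.1
      have hkk := hn.1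
      have hEp := E2 k k' i w w' hkk hw hw'
      have hpb := (hPIV k' i).1
      obtain ⟨k₀, u, hm, b1, b2, b3⟩ := hcompl w k (k - k') (piv k' i) (by omega) (by omega) hEp
        (by
          have h1 : k - (k - k') = k' := by omega
          rw [h1, hpb]
          simp)
        (by
          intro j hj
          rw [hpb, if_pos (by omega)])
      obtain ⟨c, hc⟩ := hCODE (bits i) k k' k₀ (bits u) hkk b1 b2
        (by
          intro j hj
          rw [hm.2.1 j (by omega)]
          exact ((hE k i w hw).2 j (by omega)).symm)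
        (by
          intro j hj
          exact b3 j hj)
      refine ⟨k₀, u, c, ?_⟩
      intro k'' w'' hn'' hw''
      have e1 := isNext_unique hn'' hn
      have e2 := E1 k i w'' w hw'' hw
      subst e1
      subst e2
      exact ⟨hm, hc⟩
    · exact ⟨0, 0, fun _ => false, fun k' w h1 h2 => absurd ⟨k', w, h1, h2⟩ h⟩
  choose kf uf cf hQ' using hQ
  have hP : ∀ i, ∃ P : ℕ → Bool, (∀ p, P p = true → p < 11 * D) ∧
      ∀ k k', X i k = true → IsNext (X i) k k' → ∀ o, o < 11 * (k - k') →
        P (11 * k' + o) = cf i k o := fun i => hPACK D (X i) (cf i) (hXD i)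
  choose P hPD hPc using hP
  refine ⟨X, P, idb, S, En, Bt, hXD, hPD, ?_, hS, hEn, hBt, ?_⟩
  · intro i j hj
    obtain ⟨k, w, -, -, hb⟩ := of_decide_eq_true hj
    by_contra hlt
    push Not at hlt
    have h1 : id w < 2 ^ j := lt_of_lt_of_le (hidD w) (Nat.pow_le_pow_right (by norm_num) hlt)
    rw [Nat.testBit_eq_false_of_lt h1] at hb
    exact absurd hb (by simp)
  · intro i w k
    constructor
    · rintro ⟨hXk, hor⟩
      obtain ⟨w0, hw0⟩ := (hX i k).1 hXk
      rcases hor with ⟨hlow, hidw⟩ | ⟨k', k₀, s, hn, hpt, hmt⟩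
      · have h1 := hidb i k w0 hw0 hlow
        rw [h1] at hidw
        have h2 := hid (bits_inj hidw)
        rwa [← h2]
      · obtain ⟨hm0, hpts⟩ := hQ' i k k' w0 hn hw0
        obtain ⟨e1, e2⟩ := (hpts (P i) (hPc i k k' hXk hn)).2 k₀ s hpt
        obtain ⟨u0, hu0, hE0⟩ := hsound w0 _ _ hm0
        obtain ⟨u1, hu1, hE1'⟩ := hsound w _ _ hmt
        have e3 : u0 = u1 := by
          apply bits_inj
          rw [← hu0, ← hu1, e2]
        rw [← e1, e3] at hE0
        have e4 := E1 k₀ u1 w0 w hE0 hE1'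
        rwa [← e4]
    · intro hw
      have hXk : X i k = true := (hX i k).2 ⟨w, hw⟩
      refine ⟨hXk, ?_⟩
      by_cases hlow : ∀ j, j < k → X i j = false
      · exact Or.inl ⟨hlow, hidb i k w hw hlow⟩
      · obtain ⟨k', hn⟩ := exists_isNext hlow
        obtain ⟨hm0, hpts⟩ := hQ' i k k' w hn hw
        exact Or.inr ⟨k', kf i k, bits (uf i k), hn, (hpts (P i) (hPc i k k' hXk hn)).1, hm0⟩

end R467.IR
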