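import Pool.Agent.R467.IR.Defs

/-! NW: labels of the whites. -/

namespace R467.IR

/-- the data at one level -/
def Gd (E : ℕ → ℕ → Prop) (k g s : ℕ) : Prop :=
  1 ≤ g ∧ g ≤ k ∧ E k s ∧ s.testBit (k - g) = true ∧ ∀ j, j < k - g → s.testBit j = false

open Classical in
theorem t_NW : S_VIT → S_NW := by
  intro hV D t E hE
  -- gaps and chosen times
  have hgap : ∀ k, ∃ g s, (∃ g s, Gd E k g s) → Gd E k g s ∧ ∀ g' s', Gd E k g' s' → g ≤ g' := by
    intro k
    by_cases h : ∃ g s, Gd E k g s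
    · obtain ⟨s, hs⟩ := Nat.find_spec h
      exact ⟨Nat.find h, s, fun _ => ⟨hs, fun g' s' h' => Nat.find_min' h ⟨s', h'⟩⟩⟩
    · exact ⟨0, 0, fun h' => absurd h' h⟩
  choose gap sk hg using hgap
  let R : Finset ℕ := (Finset.range D).filter (fun k => ∃ g s, Gd E k g s)
  obtain ⟨M, hM, hpair, hcov⟩ := hV R gap
  have hMD : ∀ k ∈ M, k < D := fun k hk =>
    Finset.mem_range.1 (Finset.mem_filter.1 (hM hk)).1
  have hMg : ∀ k ∈ M, Gd E k (gap k) (sk k) := fun k hk =>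
    (hg k (Finset.mem_filter.1 (hM hk)).2).1
  -- disjointness of the intervals
  have hdis : ∀ k ∈ M, ∀ k₀ ∈ M, ∀ j, k - gap k ≤ j → j ≤ k → k₀ - gap k₀ ≤ j → j ≤ k₀ → k = k₀ := by
    intro k hk k₀ hk₀ j h1 h2 h3 h4
    by_contra hne
    have := hpair k hk k₀ hk₀ hne
    omega
  let S : ℕ → Bool := fun j => decide (j ∈ M)
  let En : ℕ → Bool := fun j => decide (∃ k ∈ M, j = k - gap k)
  let Bt : ℕ → Bool := fun j => decide (∃ k ∈ M, k - gap k ≤ j ∧ j ≤ k ∧ (sk k).testBit j = true)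
  have hEnN : ∀ k₀ ∈ M, ∀ j, k₀ - gap k₀ < j → j ≤ k₀ → En j = false := by
    intro k₀ hk₀ j h1 h2
    refine decide_eq_false ?_
    rintro ⟨k, hk, rfl⟩
    have hgk := (hMg k hk).2.1
    have := hdis k hk k₀ hk₀ (k - gap k) le_rfl (by omega) h1.le h2
    subst this
    omega
  have hBt : ∀ k₀ ∈ M, ∀ j, k₀ - gap k₀ ≤ j → j ≤ k₀ → Bt j = (sk k₀).testBit j := by
    intro k₀ hk₀ j h1 h2
    cases hb : (sk k₀).testBit j with
    | true => exact decide_eq_true ⟨k₀, hk₀, h1, h2, hb⟩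
    | false =>
      refine decide_eq_false ?_
      rintro ⟨k, hk, h3, h4, h5⟩
      have := hdis k hk k₀ hk₀ j h3 h4 h1 h2
      subst this
      rw [hb] at h5
      exact absurd h5 (by simp)
  refine ⟨S, En, Bt, ?_, ?_, ?_, ?_, ?_⟩
  · intro j hj
    exact hMD j (of_decide_eq_true hj)
  · intro j hj
    obtain ⟨k, hk, rfl⟩ := of_decide_eq_true hj
    have := hMD k hk
    omega
  · intro j hj
    obtain ⟨k, hk, -, h2, -⟩ := of_decide_eq_true hj
    have := hMD k hk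
    omega
  · rintro k₀ s ⟨h1, h2, e, h3, h4, h5, h6, h7⟩
    have hk₀ : k₀ ∈ M := of_decide_eq_true h1
    obtain ⟨g1, g2, g3, g4, g5⟩ := hMg k₀ hk₀
    -- the end
    have he : e = k₀ - gap k₀ := by
      have h8 : k₀ - gap k₀ ≤ e := by
        by_contra hlt
        push Not at hlt
        have h9 := h5 (k₀ - gap k₀) hlt (by omega)
        have h10 : En (k₀ - gap k₀) = true := decide_eq_true ⟨k₀, hk₀, rfl⟩
        rw [h9] at h10
        exact absurd h10 (by simp)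
      by_contra hne
      have h9 := hEnN k₀ hk₀ e (by omega) h3
      rw [h4] at h9
      exact absurd h9 (by simp)
    refine ⟨sk k₀, ?_, g3⟩
    funext j
    change s j = (sk k₀).testBit j
    by_cases hj1 : k₀ < j
    · rw [h2 j hj1]
      exact ((hE k₀ (sk k₀) g3).2 j hj1).symm
    · by_cases hj2 : j < e
      · rw [h7 j hj2, g5 j (by omega)]
      · rw [h6 j (by omega) (by omega)]
        exact hBt k₀ hk₀ j (by omega) (by omega)
  · intro k g s hg1 hgk hEs hb hlow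
    have hGd : Gd E k g s := ⟨hg1, hgk, hEs, hb, hlow⟩
    have hkR : k ∈ R := Finset.mem_filter.2 ⟨Finset.mem_range.2 (hE k s hEs).1, g, s, hGd⟩
    have hgg : gap k ≤ g := (hg k ⟨g, s, hGd⟩).2 g s hGd
    obtain ⟨k₀, hk₀, c1, c2, c3⟩ := hcov k hkR
    obtain ⟨g1, g2, g3, g4, g5⟩ := hMg k₀ hk₀
    refine ⟨k₀, sk k₀, ⟨decide_eq_true hk₀, ?_, k₀ - gap k₀, by omega,
      decide_eq_true ⟨k₀, hk₀, rfl⟩, hEnN k₀ hk₀, ?_, ?_⟩, by omega, by omega, ?_⟩
    · intro j hj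
      exact (hE k₀ (sk k₀) g3).2 j hj
    · intro j h1 h2
      exact (hBt k₀ hk₀ j h1 h2).symm
    · intro j hj
      exact g5 j hj
    · intro j hj
      exact g5 j (by omega)

end R467.IR
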