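import Pool.Agent.R467.IR.Piv

namespace R467.IR

theorem t_NAME (hP : S_PIV) (hNW : S_NW) (hPk : S_PACK) (hCo : S_CODE) : S_NAME := by
  classical
  intro D W id τ E hid hidD E0 E1 E2
  -- labels of the whites
  have hw : ∀ w : W, ∃ S En Bt : ℕ → Bool,
    (∀ j, S j = true → j < D) ∧ (∀ j, En j = true → j < D) ∧ (∀ j, Bt j = true → j < D) ∧
    (∀ k₀ s, Match (bits (τ w)) S En Bt k₀ s → ∃ u, s = bits u ∧ E k₀ u w) ∧
    (∀ k g s, 1 ≤ g → g ≤ k → E k s w → s.testBit (k - g) = true →
      (∀ j, j < k - g → s.testBit j = false) →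
      ∃ k₀ u, Match (bits (τ w)) S En Bt k₀ (bits u) ∧ k ≤ k₀ + 2 * g ∧ k₀ ≤ k + 2 * g ∧
        ∀ j, j + 3 * g < k → u.testBit j = false) :=
    fun w => hNW D (τ w) (fun k s => E k s w) (fun k s h => E0 k s w h)
  choose S En Bt hS hEn hBt hsound hcompl using hw
  -- exceptional levels
  let X : ℕ → ℕ → Bool := fun i k => decide (∃ w, E k i w)
  have hX : ∀ i k, X i k = true ↔ ∃ w, E k i w := fun i k => by simp [X]
  have hXD : ∀ i j, X i j = true → j < D := by
    intro i j h
    obtain ⟨w, hw⟩ := (hX i j).1 h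
    exact (E0 j i w hw).1
  -- identity of the deepest exception
  let idb : ℕ → ℕ → Bool := fun i j =>
    decide (∃ k w, E k i w ∧ (∀ k', k' < k → X i k' = false) ∧ (id w).testBit j = true)
  have hidb : ∀ i k w, E k i w → (∀ k', k' < k → X i k' = false) → idb i = bits (id w) := by
    intro i k w hE hmin
    funext j
    by_cases hb : (id w).testBit j = true
    · have : idb i j = true := by
        simp only [idb, decide_eq_true_eq]
        exact ⟨k, w, hE, hmin, hb⟩
      rw [this]
      exact hb.symm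
    · have h1 : idb i j = false := by
        simp only [idb, decide_eq_false_iff_not]
        rintro ⟨k₂, w₂, hE₂, hmin₂, hb₂⟩
        have hk : k₂ = k := by
          rcases lt_trichotomy k₂ k with h | h | h
          · have := hmin k₂ h
            rw [(hX i k₂).2 ⟨w₂, hE₂⟩] at this
            exact absurd this (by simp)
          · exact h
          · have := hmin₂ k h
            rw [(hX i k).2 ⟨w, hE⟩] at this
            exact absurd this (by simp)
        subst hk
        rw [E1 k₂ i w₂ w hE₂ hE] at hb₂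
        exact hb hb₂
      rw [h1]
      have h2 : (id w).testBit j = false := by
        cases hc : (id w).testBit j
        · rfl
        · exact absurd hc hb
      exact h2.symm
  -- pointers
  have hptr : ∀ i k k' : ℕ, ∀ w, E k i w → IsNext (X i) k k' →
      ∃ k₀ u, Match (bits (τ w)) (S w) (En w) (Bt w) k₀ (bits u) ∧ k ≤ k₀ + 2 * (k - k') ∧
        k₀ ≤ k + 2 * (k - k') ∧ (∀ j, j + 3 * (k - k') < k → u.testBit j = false) ∧
        (∀ j, k + 2 * (k - k') < j → u.testBit j = i.testBit j) := by
    intro i k k' w hE hn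
    obtain ⟨w', hw'⟩ := (hX i k').1 hn.2.1
    have hE2 := E2 k k' i w w' hn.1 hE hw'
    have hbits := (hP k' i).1
    have hkk : k - (k - k') = k' := by have := hn.1; omega
    obtain ⟨k₀, u, hM, h1, h2, h3⟩ := hcompl w k (k - k') (piv k' i) (by have := hn.1; omega)
      (by omega) hE2 (by rw [hkk, hbits]; simp)
      (by
        intro j hj
        rw [hkk] at hj
        rw [hbits]
        simp [hj])
    refine ⟨k₀, u, hM, h1, h2, h3, ?_⟩
    intro j hj
    have ha : bits u j = bits (τ w) j := hM.2.1 j (by omega)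
    have hb := (E0 k i w hE).2 j (by omega)
    exact ha.trans hb.symm
  -- codes
  have hcode : ∀ i k : ℕ, ∃ c : ℕ → Bool, ∀ k' w, E k i w → IsNext (X i) k k' →
      ∃ k₀ u, Match (bits (τ w)) (S w) (En w) (Bt w) k₀ (bits u) ∧
        ∀ P : ℕ → Bool, (∀ o, o < 11 * (k - k') → P (11 * k' + o) = c o) →
          Points (bits i) P k k' k₀ (bits u) ∧
          ∀ k₁ s₁, Points (bits i) P k k' k₁ s₁ → k₁ = k₀ ∧ s₁ = bits u := by
    intro i k
    by_cases h : ∃ k' w, E k i w ∧ IsNext (X i) k k'
    · obtain ⟨k', w, hE, hn⟩ := h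
      obtain ⟨k₀, u, hM, h1, h2, h3, h4⟩ := hptr i k k' w hE hn
      obtain ⟨c, hc⟩ := hCo (bits i) k k' k₀ (bits u) hn.1 h1 h2 h4 h3
      refine ⟨c, ?_⟩
      intro k₂' w₂ hE₂ hn₂
      have hk : k₂' = k' := by
        rcases lt_trichotomy k₂' k' with h | h | h
        · have := hn₂.2.2 k' h hn.1
          rw [hn.2.1] at this
          exact absurd this (by simp)
        · exact h
        · have := hn.2.2 k₂' h hn₂.1
          rw [hn₂.2.1] at this
          exact absurd this (by simp)
      subst hk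
      have hww : w₂ = w := E1 k i w₂ w hE₂ hE
      subst hww
      exact ⟨k₀, u, hM, hc⟩
    · refine ⟨fun _ => false, ?_⟩
      intro k' w hE hn
      exact absurd ⟨k', w, hE, hn⟩ h
  choose c hc using hcode
  have hpack : ∀ i : ℕ, ∃ P : ℕ → Bool, (∀ p, P p = true → p < 11 * D) ∧
      ∀ k k', X i k = true → IsNext (X i) k k' → ∀ o, o < 11 * (k - k') → P (11 * k' + o) = c i k o :=
    fun i => hPk D (X i) (c i) (hXD i)
  choose P hPD hPc using hpack
  refine ⟨X, P, idb, S, En, Bt, hXD, hPD, ?_, hS, hEn, hBt, ?_⟩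
  · intro i j h
    simp only [idb, decide_eq_true_eq] at h
    obtain ⟨k, w, hE, _, hb⟩ := h
    by_contra hj
    push Not at hj
    rw [Nat.testBit_lt_two_pow (lt_of_lt_of_le (hidD w)
      (Nat.pow_le_pow_right (by norm_num) hj))] at hb
    exact absurd hb (by simp)
  · intro i w k
    constructor
    · rintro ⟨hXk, h⟩
      obtain ⟨w₀, hw₀⟩ := (hX i k).1 hXk
      rcases h with ⟨hmin, hidi⟩ | ⟨k', k₀, s, hn, hpt, hM⟩
      · have h1 := hidb i k w₀ hw₀ hmin
        rw [h1] at hidi
        have h2 : id w₀ = id w := Nat.eq_of_testBit_eq (fun j => congrFun hidi j)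
        rw [← hid h2]
        exact hw₀
      · obtain ⟨k₁, u, hM₁, hP₁⟩ := hc i k k' w₀ hw₀ hn
        obtain ⟨-, huniq⟩ := hP₁ (P i) (hPc i k k' hXk hn)
        obtain ⟨rfl, rfl⟩ := huniq k₀ s hpt
        obtain ⟨u₁, hu₁, hE₁⟩ := hsound w k₀ _ hM
        obtain ⟨u₂, hu₂, hE₂⟩ := hsound w₀ k₀ _ hM₁
        have e₁ : u = u₁ := Nat.eq_of_testBit_eq (fun j => congrFun hu₁ j)
        have e₂ : u = u₂ := Nat.eq_of_testBit_eq (fun j => congrFun hu₂ j)
        subst e₁
        subst e₂
        rw [E1 k₀ _ w w₀ hE₁ hE₂]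
        exact hw₀
    · intro hE
      have hXk : X i k = true := (hX i k).2 ⟨w, hE⟩
      refine ⟨hXk, ?_⟩
      by_cases hmin : ∀ j, j < k → X i j = false
      · left
        exact ⟨hmin, hidb i k w hE hmin⟩
      · right
        push Not at hmin
        obtain ⟨j₀, hj₀, hXj₀⟩ := hmin
        have hne : ((Finset.range k).filter fun j => X i j = true).Nonempty :=
          ⟨j₀, by simp only [Finset.mem_filter, Finset.mem_range]; exact ⟨hj₀, by simpa using hXj₀⟩⟩
        obtain ⟨hk1, hk2⟩ := Finset.mem_filter.1 (Finset.max'_mem _ hne)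
        have hn : IsNext (X i) k (((Finset.range k).filter fun j => X i j = true).max' hne) := by
          refine ⟨Finset.mem_range.1 hk1, hk2, ?_⟩
          intro j hj hjk
          cases hcj : X i j
          · rfl
          · have hmem : j ∈ (Finset.range k).filter fun j => X i j = true :=
              Finset.mem_filter.2 ⟨Finset.mem_range.2 hjk, hcj⟩
            have := Finset.le_max' _ j hmem
            omega
        obtain ⟨k₀, u, hM, hP₁⟩ := hc i k _ w hE hn
        exact ⟨_, k₀, bits u, hn, (hP₁ (P i) (hPc i k _ hXk hn)).1, hM⟩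

end R467.IR
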