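import Pool.Agent.R467.IR.Defs

set_option autoImplicit false

namespace R467.IR

theorem t_ORD : S_ORD := by
  classical
  intro Bk W _ _ R hR
  let e : Bk ≃ Fin (Fintype.card Bk) := Fintype.equivFin Bk
  let N : Bk → Finset W := fun b => Finset.univ.filter fun w => R b w
  let f : Fin (Fintype.card Bk) → ℕ := fun i => (N (e.symm i)).card
  let σ := Tuple.sort f
  have hmono : Monotone (f ∘ σ) := Tuple.monotone_sort f
  refine ⟨fun b => (σ.symm (e b) : Fin (Fintype.card Bk)), fun i w => if h : i < Fintype.card Bk then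
    decide (R (e.symm (σ ⟨i, h⟩)) w) else true, fun b => (σ.symm (e b)).2, ?_, ?_⟩
  · intro b w
    have h1 : ((σ.symm (e b) : Fin (Fintype.card Bk)) : ℕ) < Fintype.card Bk := (σ.symm (e b)).2
    simp only [h1, dif_pos, decide_eq_true_eq, Fin.eta, Equiv.apply_symm_apply,
      Equiv.symm_apply_apply]
  · rintro i j w w' hij hne ⟨h1, h2, h3, h4⟩
    have hj : j < Fintype.card Bk := by
      by_contra hj
      simp only [hj, dif_neg, not_false_eq_true] at h3
      cases h3
    have hi : i < Fintype.card Bk := by omega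
    simp only [hi, hj, dif_pos, decide_eq_true_eq, decide_eq_false_iff_not] at h1 h2 h3 h4
    have hle : (N (e.symm (σ ⟨i, hi⟩))).card ≤ (N (e.symm (σ ⟨j, hj⟩))).card :=
      hmono (show (⟨i, hi⟩ : Fin (Fintype.card Bk)) ≤ ⟨j, hj⟩ from hij)
    generalize e.symm (σ ⟨i, hi⟩) = b at h1 h2 h3 h4 hle
    generalize e.symm (σ ⟨j, hj⟩) = b' at h3 h4 hle
    have c1 := Finset.card_sdiff_add_card_inter (N b) (N b')
    have c2 := Finset.card_sdiff_add_card_inter (N b') (N b)
    rw [Finset.inter_comm (N b') (N b)] at c2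
    have c3 : 1 < (N b \ N b').card := by
      rw [Finset.one_lt_card]
      refine ⟨w, ?_, w', ?_, hne⟩
      · rw [Finset.mem_sdiff, Finset.mem_filter, Finset.mem_filter]
        exact ⟨⟨Finset.mem_univ _, h1⟩, fun h => h3 h.2⟩
      · rw [Finset.mem_sdiff, Finset.mem_filter, Finset.mem_filter]
        exact ⟨⟨Finset.mem_univ _, h2⟩, fun h => h4 h.2⟩
    have c4 : 1 < (N b' \ N b).card := by omega
    rw [Finset.one_lt_card] at c4
    obtain ⟨w₃, hw3, w₄, hw4, hne'⟩ := c4
    rw [Finset.mem_sdiff, Finset.mem_filter, Finset.mem_filter] at hw3 hw4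
    exact hR b b' w w' w₃ w₄ hne hne' h1 h2 h3 h4 hw3.1.2 hw4.1.2
      (fun h => hw3.2 ⟨Finset.mem_univ _, h⟩) (fun h => hw4.2 ⟨Finset.mem_univ _, h⟩)

end R467.IR
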