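import Pool.Agent.R467.IR.Defs

/-! PACK: packing the codes of disjoint windows in one track. -/

namespace R467.IR

open Classical in
theorem t_PACK : S_PACK := by
  intro D X c hX
  refine ⟨fun p => decide (∃ k k' o, X k = true ∧ IsNext X k k' ∧ o < 11 * (k - k') ∧
    p = 11 * k' + o ∧ c k o = true), ?_, ?_⟩
  · intro p hp
    obtain ⟨k, k', o, hk, hn, ho, rfl, -⟩ := of_decide_eq_true hp
    have h1 := hX k hk
    have h2 := hn.1
    omega
  · intro k k' hk hn o ho
    by_cases hc : c k o = true
    · rw [hc]
      exact decide_eq_true ⟨k, k', o, hk, hn, ho, rfl, hc⟩
    · have hc' : c k o = false := by simpa using hc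
      rw [hc']
      refine decide_eq_false ?_
      rintro ⟨k1, k1', o1, hk1, hn1, ho1, he, hc1⟩
      have h1 : k1' = k' := by
        rcases lt_trichotomy k1' k' with h | h | h
        · exfalso
          have h2 : k1 ≤ k' := by
            by_contra hlt
            push Not at hlt
            have := hn1.2.2 k' h hlt
            rw [hn.2.1] at this
            exact absurd this (by simp)
          have := hn1.1
          omega
        · exact h
        · exfalso
          have h2 : k ≤ k1' := by
            by_contra hlt
            push Not at hlt
            have := hn.2.2 k1' h hlt
            rw [hn1.2.1] at this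
            exact absurd this (by simp)
          have := hn.1
          omega
      subst h1
      have h3 : k1 = k := by
        rcases lt_trichotomy k1 k with h | h | h
        · exfalso
          have := hn.2.2 k1 hn1.1 h
          rw [hk1] at this
          exact absurd this (by simp)
        · exact h
        · exfalso
          have := hn1.2.2 k hn.1 h
          rw [hk] at this
          exact absurd this (by simp)
      subst h3
      have h4 : o1 = o := by omega
      subst h4
      exact hc hc1

end R467.IR
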