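import Pool.Agent.R467.IR.Defs

namespace R467.IR

theorem piv_testBit (k i j : ℕ) :
    (piv k i).testBit j = if j < k then false else if j = k then true else i.testBit j := by
  unfold piv
  rw [Nat.testBit_mul_two_pow]
  by_cases h1 : j < k
  · simp [h1]
  · by_cases h2 : j = k
    · subst h2
      simp [Nat.testBit_zero]
    · obtain ⟨m, rfl⟩ : ∃ m, j = k + (m + 1) := ⟨j - k - 1, by omega⟩
      have h3 : k + (m + 1) - k = m + 1 := by omega
      rw [h3, Nat.testBit_succ]
      have h4 : (i / 2 ^ (k + 1) * 2 + 1) / 2 = i / 2 ^ (k + 1) := by omega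
      rw [h4, Nat.testBit_div_two_pow]
      have h5 : m + (k + 1) = k + (m + 1) := by omega
      rw [h5]
      simp

theorem piv_le (k i : ℕ) (h : i.testBit k = true) : piv k i ≤ i := by
  unfold piv
  have h1 : i / 2 ^ k % 2 = 1 := by
    have := Nat.testBit_eq_decide_div_mod_eq (x := i) (i := k)
    rw [h] at this
    simpa using this.symm
  have h2 : i / 2 ^ (k + 1) = i / 2 ^ k / 2 := by
    rw [pow_succ, Nat.div_div_eq_div_mul]
  have h3 : i / 2 ^ (k + 1) * 2 + 1 = i / 2 ^ k := by omega
  rw [h3]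
  exact Nat.div_mul_le_self i (2 ^ k)

theorem le_piv (k i : ℕ) (h : i.testBit k = false) : i ≤ piv k i := by
  unfold piv
  have h1 : i / 2 ^ k % 2 = 0 := by
    have := Nat.testBit_eq_decide_div_mod_eq (x := i) (i := k)
    rw [h] at this
    have h' := this.symm
    simp only [decide_eq_false_iff_not] at h'
    omega
  have h2 : i / 2 ^ (k + 1) = i / 2 ^ k / 2 := by
    rw [pow_succ, Nat.div_div_eq_div_mul]
  have h3 : i / 2 ^ (k + 1) * 2 + 1 = i / 2 ^ k + 1 := by omega
  rw [h3]
  have := Nat.lt_succ_iff.1 (Nat.lt_succ_of_le (Nat.div_add_mod i (2 ^ k)).ge)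
  have h4 : i % 2 ^ k < 2 ^ k := Nat.mod_lt _ (by positivity)
  have h5 := Nat.div_add_mod i (2 ^ k)
  nlinarith [h4, h5]

theorem t_PIV : S_PIV := by
  intro k i
  refine ⟨piv_testBit k i, piv_le k i, le_piv k i, ?_, ?_⟩
  · intro D hk hi
    apply Nat.lt_pow_two_of_testBit
    intro j hj
    rw [piv_testBit]
    have h1 : ¬ j < k := by omega
    have h2 : j ≠ k := by omega
    simp only [h1, h2, if_false]
    exact Nat.testBit_lt_two_pow (lt_of_lt_of_le hi (Nat.pow_le_pow_right (by norm_num) hj))
  · intro i' h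
    apply Nat.eq_of_testBit_eq
    intro j
    rw [piv_testBit, piv_testBit]
    by_cases h1 : j < k
    · simp [h1]
    · by_cases h2 : j = k
      · simp [h2]
      · simp only [h1, h2, if_false]
        exact h j (by omega)

end R467.IR
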