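import Pool.Agent.R467.IR.Defs

/-! SEARCH: binary search path. -/

namespace R467.IR

theorem search_aux (y : ℕ → Bool) : ∀ K a : ℕ, ∃ t : ℕ, t / 2 ^ K = a ∧
    ∀ k, k < K → (y (piv k t) = true ↔ t.testBit k = false) := by
  intro K
  induction K with
  | zero =>
    intro a
    exact ⟨a, by simp, fun k hk => absurd hk (by omega)⟩
  | succ K ih =>
    intro a
    have hdiv : ∀ t, t / 2 ^ (K + 1) = t / 2 ^ K / 2 := by
      intro t
      rw [pow_succ, Nat.div_div_eq_div_mul]
    by_cases hy : y ((a * 2 + 1) * 2 ^ K) = true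
    · obtain ⟨t, ht, hall⟩ := ih (2 * a)
      refine ⟨t, by rw [hdiv, ht]; omega, ?_⟩
      intro k hk
      by_cases hkK : k = K
      · subst hkK
        have h1 : piv k t = (a * 2 + 1) * 2 ^ k := by
          unfold piv
          rw [hdiv, ht]
          congr 2
          omega
        rw [h1, Nat.testBit_eq_decide_div_mod_eq, ht]
        simp [hy]
      · exact hall k (by omega)
    · obtain ⟨t, ht, hall⟩ := ih (2 * a + 1)
      refine ⟨t, by rw [hdiv, ht]; omega, ?_⟩
      intro k hk
      by_cases hkK : k = K
      · subst hkK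
        have h1 : piv k t = (a * 2 + 1) * 2 ^ k := by
          unfold piv
          rw [hdiv, ht]
          congr 2
          omega
        rw [h1, Nat.testBit_eq_decide_div_mod_eq, ht]
        have h2 : (2 * a + 1) % 2 = 1 := by omega
        simp [hy, h2]
      · exact hall k (by omega)

theorem t_SEARCH : S_PIV → S_SEARCH := by
  intro _ D y
  obtain ⟨t, ht, hall⟩ := search_aux y D 0
  refine ⟨t, ?_, hall⟩
  exact (Nat.div_eq_zero_iff_lt (by positivity)).1 ht

end R467.IR
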