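import Pool.Agent.R467.IR.Defs

/-! VIT: Vitali covering with the smallest intervals first. -/

namespace R467.IR

theorem t_VIT : S_VIT := by
  intro R g
  induction R using Finset.strongInduction with
  | _ R ih =>
    rcases R.eq_empty_or_nonempty with rfl | hne
    · exact ⟨∅, le_rfl, by simp, by simp⟩
    · obtain ⟨b, hb, hmin⟩ := Finset.exists_min_image R g hne
      let R' := R.filter (fun a => a + g a + g b < b ∨ b + g a + g b < a)
      have hsub : R' ⊆ R := Finset.filter_subset _ _
      have hbR' : b ∉ R' := by
        intro h
        have := (Finset.mem_filter.1 h).2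
        omega
      have hss : R' ⊂ R := (Finset.ssubset_iff_of_subset hsub).2 ⟨b, hb, hbR'⟩
      obtain ⟨M, hM, hpair, hcov⟩ := ih R' hss
      refine ⟨insert b M, ?_, ?_, ?_⟩
      · intro x hx
        rcases Finset.mem_insert.1 hx with rfl | hx
        · exact hb
        · exact hsub (hM hx)
      · intro x hx y hy hxy
        rcases Finset.mem_insert.1 hx with h1 | h1
        · rcases Finset.mem_insert.1 hy with h2 | h2
          · exact absurd (h1.trans h2.symm) hxy
          · have := (Finset.mem_filter.1 (hM h2)).2
            rw [h1]
            omega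
        · rcases Finset.mem_insert.1 hy with h2 | h2
          · have := (Finset.mem_filter.1 (hM h1)).2
            rw [h2]
            omega
          · exact hpair x h1 y h2 hxy
      · intro a ha
        by_cases h : a ∈ R'
        · obtain ⟨c, hc, h1⟩ := hcov a h
          exact ⟨c, Finset.mem_insert_of_mem hc, h1⟩
        · have h1 : ¬ (a + g a + g b < b ∨ b + g a + g b < a) := fun h2 =>
            h (Finset.mem_filter.2 ⟨ha, h2⟩)
          refine ⟨b, Finset.mem_insert_self b M, hmin a ha, ?_, ?_⟩ <;> omega

end R467.IR
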